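import Pool.Agent.Helper10.SP.GoalsI
import Pool.Agent.Helper35.SP.Basic
import Pool.Agent.Helper95.Lin.Basics

/-!
# Packet SP-HODC: bounded cocycles are coboundaries of basic pluriharmonic functions
-/

open Complex Metric Set Filter Topology MeasureTheory
open scoped ContDiff ComplexConjugate ComplexOrder Manifold

namespace Pool.Agent.Helper19.SP

open Pool.Agent.Helper95.Lin Pool.Agent.Helper16.Abund Pool.Agent.Helper92.Orb
open Pool.Agent.Helper10.SP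

universe u v

/-- The averaged cocycle. -/
noncomputable def vav {n : ℕ} {G : Type u} (R : G → Cn n → Cn n → Prop) (κ : Cn n → ℝ)
    (cc : G → Cn n → Cn n → ℝ) (x : Cn n) : ℝ :=
  - AS R x (fun γ y => κ y * cc γ x y)

section

variable {n : ℕ} {T : Set (Cn n)} {G : Type u} [Group G] {R : G → Cn n → Cn n → Prop}
  {κ : Cn n → ℝ} {cc : G → Cn n → Cn n → ℝ}

theorem vav_rep (hLFIN : S_LFIN.{u}) (hE : Et T R) (hκ : IsPUE T R κ) {x₀ : Cn n}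
    (hx₀ : x₀ ∈ T) : ∃ (U : Set (Cn n)) (m : ℕ) (γ : Fin m → G) (τ : Fin m → Cn n → Cn n),
      x₀ ∈ U ∧ IsOpen U ∧ U ⊆ T ∧ (∀ k, LAr R (γ k) U (τ k)) ∧
      ∀ (f : G → Cn n → ℝ), ∀ x ∈ U, AS R x (fun γ y => κ y * f γ y) =
        ∑ k, κ (τ k x) * f (γ k) (τ k x) := by
  obtain ⟨U, m, γ, τ, h1, h2, h3, h4, -, -, h7⟩ :=
    hLFIN T R hE (tsupport κ) hκ.test.2.2 hκ.test.2.1.isCompact x₀ hx₀
  refine ⟨U, m, γ, τ, h1, h2, h3, fun k => (h4 k).1, fun f x hx => ?_⟩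
  exact h7 ℝ (fun γ y => κ y * f γ y) (fun γ' y hy => by
    rw [image_eq_zero_of_notMem_tsupport hy, zero_mul]) x hx

theorem loc_cc (hcc : Coc R cc) {U : Set (Cn n)} {γ : G} {τ : Cn n → Cn n} (hL : LAr R γ U τ)
    {x₀ : Cn n} (hx₀ : x₀ ∈ U) : ∀ᶠ x in 𝓝 x₀, cc γ x (τ x) = cc γ x₀ (τ x₀) := by
  have hR : R γ x₀ (τ x₀) := hL.2.2 x₀ hx₀
  obtain ⟨U', hU', W', hW', h⟩ := hcc.loc _ _ _ hR
  have hct : ContinuousAt τ x₀ :=
    (hL.2.1.differentiableAt (hL.1.mem_nhds hx₀)).continuousAt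
  filter_upwards [hU', hct hW', hL.1.mem_nhds hx₀] with x hx hx' hxU'
  exact h x hx (τ x) hx' (hL.2.2 x hxU')

theorem vav_smooth (hLFIN : S_LFIN.{u}) (hE : Et T R) (hκ : IsPUE T R κ) (hcc : Coc R cc) :
    ContDiffOn ℝ ∞ (vav R κ cc) T := by
  intro x₀ hx₀
  obtain ⟨U, m, γ, τ, hxU, hUo, hUT, hL, hrep⟩ := vav_rep hLFIN hE hκ hx₀
  have heq : vav R κ cc =ᶠ[𝓝 x₀] fun x => - ∑ k, κ (τ k x) * cc (γ k) x₀ (τ k x₀) := by
    filter_upwards [eventually_all.2 fun k => loc_cc hcc (hL k) hxU,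
      hUo.mem_nhds hxU] with x hx hxU'
    rw [vav, hrep (fun γ y => cc γ x y) x hxU']
    congr 1
    exact Finset.sum_congr rfl fun k _ => by rw [hx k]
  have hsm : ContDiffAt ℝ ∞ (fun x => - ∑ k, κ (τ k x) * cc (γ k) x₀ (τ k x₀)) x₀ := by
    refine (ContDiffAt.sum fun k _ => ?_).neg
    refine ContDiffAt.mul ?_ contDiffAt_const
    exact hκ.test.1.contDiffAt.comp x₀
      ((holo_contDiffOn_real hUo (hL k).2.1).contDiffAt (hUo.mem_nhds hxU))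
  exact (hsm.congr_of_eventuallyEq heq).contDiffWithinAt

omit [Group G] in
theorem sum_one (hκ : IsPUE T R κ) {x : Cn n} (hx : x ∈ T) {m : ℕ} {γ : Fin m → G}
    {τ : Fin m → Cn n → Cn n}
    (hrep : ∀ (f : G → Cn n → ℝ), AS R x (fun γ y => κ y * f γ y) =
      ∑ k, κ (τ k x) * f (γ k) (τ k x)) : ∑ k, κ (τ k x) = 1 := by
  have h := hrep (fun _ _ => 1)
  simp only [mul_one] at h
  rw [← h]
  exact hκ.sum x hx

theorem vav_rel (hLFIN : S_LFIN.{u}) (hASI : S_ASI.{u}) (hE : Et T R) (hκ : IsPUE T R κ)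
    (hcc : Coc R cc) {γ₀ : G} {x x' : Cn n} (h : R γ₀ x x') :
    vav R κ cc x' - vav R κ cc x = cc γ₀ x x' := by
  have hx : x ∈ T := (hE.mem _ _ _ h).1
  have e1 : AS R x' (fun γ y => κ y * cc γ x' y) =
      AS R x fun γ y => κ y * cc (γ * γ₀⁻¹) x' y :=
    hASI T R hE ℝ (fun γ y => κ y * cc γ x' y) γ₀ x x' h
  obtain ⟨U, m, γ, τ, hxU, hUo, hUT, hL, hrep⟩ := vav_rep hLFIN hE hκ hx
  have e2 : ∀ k, cc (γ k * γ₀⁻¹) x' (τ k x) = cc (γ k) x (τ k x) - cc γ₀ x x' := by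
    intro k
    have hR : R (γ k) x (τ k x) := (hL k).2.2 x hxU
    have hR' : R (γ k * γ₀⁻¹) x' (τ k x) :=
      hE.mul γ₀⁻¹ (γ k) x' x (τ k x) (hE.inv _ _ _ h) hR
    have h2 := hcc.mul γ₀ (γ k * γ₀⁻¹) x x' (τ k x) h hR'
    rw [inv_mul_cancel_right] at h2
    linarith
  have e3 : ∑ k, κ (τ k x) = 1 := sum_one hκ hx (γ := γ) fun f => hrep f x hxU
  rw [vav, vav, e1, hrep (fun γ y => cc (γ * γ₀⁻¹) x' y) x hxU, hrep (fun γ y => cc γ x y) x hxU]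
  simp only [e2, mul_sub, Finset.sum_sub_distrib, ← Finset.sum_mul, e3]
  ring

theorem vav_bdd (hLFIN : S_LFIN.{u}) (hE : Et T R) (hκ : IsPUE T R κ) (hcc : Coc R cc) :
    ∃ B : ℝ, ∀ x ∈ T, |vav R κ cc x| ≤ B := by
  obtain ⟨B, hB⟩ := hcc.bdd
  refine ⟨B, fun x hx => ?_⟩
  obtain ⟨U, m, γ, τ, hxU, hUo, hUT, hL, hrep⟩ := vav_rep hLFIN hE hκ hx
  have e3 : ∑ k, κ (τ k x) = 1 := sum_one hκ hx (γ := γ) fun f => hrep f x hxU
  rw [vav, hrep (fun γ y => cc γ x y) x hxU, abs_neg]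
  calc |∑ k, κ (τ k x) * cc (γ k) x (τ k x)| ≤ ∑ k, |κ (τ k x) * cc (γ k) x (τ k x)| :=
        Finset.abs_sum_le_sum_abs _ _
    _ ≤ ∑ k, κ (τ k x) * B := by
        refine Finset.sum_le_sum fun k _ => ?_
        rw [abs_mul, abs_of_nonneg (hκ.nonneg _)]
        exact mul_le_mul_of_nonneg_left (hB _ _ _ ((hL k).2.2 x hxU)) (hκ.nonneg _)
    _ = B := by rw [← Finset.sum_mul, e3, one_mul]

theorem vav_dinv (hLFIN : S_LFIN.{u}) (hASI : S_ASI.{u}) (hE : Et T R) (hκ : IsPUE T R κ)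
    (hcc : Coc R cc) : DInv R (vav R κ cc) := by
  rintro U τ ⟨hU, hτ, γ, hγ⟩ x hx
  have hL : LAr R γ U τ := ⟨hU, hτ, hγ⟩
  have h1 : (fun y => vav R κ cc (τ y)) =ᶠ[𝓝 x] fun y => vav R κ cc y + cc γ x (τ x) := by
    filter_upwards [loc_cc hcc hL hx, hU.mem_nhds hx] with y hy hyU
    rw [← hy, ← vav_rel hLFIN hASI hE hκ hcc (hγ y hyU)]
    ring
  rw [h1.fderiv_eq, fderiv_add_const]

theorem inv_bdd (hE : Et T R) {φ : Cn n → ℝ} (hφ : InvF T R φ) : ∃ B : ℝ, ∀ x ∈ T, |φ x| ≤ B := by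
  obtain ⟨C, hCT, hC, hcov⟩ := hE.coc
  obtain ⟨B, hB⟩ := hC.exists_bound_of_continuousOn (hφ.1.continuousOn.mono hCT)
  refine ⟨B, fun x hx => ?_⟩
  obtain ⟨γ, y, hy, hxy⟩ := hcov x hx
  rw [← hφ.2 γ x y hxy]
  exact hB y hy

end

theorem hodc (hWCH : S_WCH) (hLFIN : S_LFIN.{u}) (hASI : S_ASI.{u}) (hPUE : S_PUE.{u})
    (hHODG : S_HODG.{u}) (hLIOU : S_LIOU) : S_HODC.{u} := by
  intro b N G _ c R Rel P Φ C H hF cc hcc
  have hE : Et (tubeS (Bd c 2)) Rel := hF.ket.et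
  obtain ⟨κ, hκ⟩ := hPUE (tubeS (Bd c 2)) Rel hE
  set v : Cn (b + 1) → ℝ := vav Rel κ cc with hv
  have hvs : ContDiffOn ℝ ∞ v (tubeS (Bd c 2)) := vav_smooth hLFIN hE hκ hcc
  obtain ⟨φ, hφ, hlev⟩ := hHODG (tubeS (Bd c 2)) Rel H hF.ket v hvs
    (vav_dinv hLFIN hASI hE hκ hcc)
  have hD : IsOpen (Bd c 2) := isOpen_iUnion fun i => isOpen_ball
  set u₁ : Cn (b + 1) → ℝ := fun y => v y - φ y with hu₁
  have hu₁s : ContDiffOn ℝ ∞ u₁ (tubeS (Bd c 2)) := hvs.sub hφ.1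
  obtain ⟨B₁, hB₁⟩ := vav_bdd hLFIN hE hκ hcc
  obtain ⟨B₂, hB₂⟩ := inv_bdd hE hφ
  have hind := hLIOU (Bd c 2) hD u₁ hu₁s hlev ⟨B₁ + B₂, fun x hx =>
    (abs_sub _ _).trans (add_le_add (hB₁ x hx) (hB₂ x hx))⟩
  have hmaps : MapsTo (Helper35.SP.inc b) (Bd c 2) (tubeS (Bd c 2)) := by
    intro z hz
    show base _ ∈ Bd c 2
    rw [Helper35.SP.inc_apply, Helper35.SP.base_pt]
    exact hz
  refine ⟨fun z => u₁ (Helper35.SP.inc b z), ?_, ?_, ?_⟩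
  · refine hu₁s.comp ?_ hmaps
    exact ((Helper35.SP.inc b).restrictScalars ℝ).contDiff.contDiffOn
  · intro z hz e
    have h1 := (((hWCH.1 (tubeS (Bd c 2)) (Bd c 2) hE.isOpen hD (Helper35.SP.inc b)
      (Helper35.SP.inc b).differentiable.differentiableOn hmaps).2 u₁ hu₁s z hz).1 e)
    have h2 : (fun z => u₁ (Helper35.SP.inc b z)) = u₁ ∘ (Helper35.SP.inc b) := rfl
    rw [h2, h1]
    exact hlev _ (hmaps hz) _
  · intro γ x y hxy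
    have hm := hE.mem _ _ _ hxy
    have key : ∀ x ∈ tubeS (Bd c 2), u₁ (Helper35.SP.inc b (base x)) = u₁ x := by
      intro x hx
      rw [Helper35.SP.inc_apply, hind (base x) hx 0 (lc x), Helper35.SP.pt_eta]
    simp only []
    rw [key x hm.1, key y hm.2]
    simp only [hu₁]
    rw [hφ.2 γ x y hxy, ← vav_rel hLFIN hASI hE hκ hcc hxy]
    ring

end Pool.Agent.Helper19.SP
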