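import Pool.Agent.Helper10.SP.GoalsT
import Pool.Agent.Helper67.Lin.MOLW

/-!
# Packet SP-HOLL: limits in L2 with vanishing antiholomorphic derivatives are holomorphic
-/

open Complex Metric Set Filter Topology MeasureTheory
open scoped ContDiff ComplexConjugate ComplexOrder Manifold Convolution

namespace Pool.Agent.Helper19.SP

open Pool.Agent.Helper95.Lin Pool.Agent.Helper16.Abund Pool.Agent.Helper92.Orb
open Pool.Agent.Helper10.SP Pool.Agent.Helper67.Lin

variable {n : ℕ}

/-- The mollifier as a complex function. -/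
noncomputable def mkc (n : ℕ) (ε : ℝ) (y : Cn n) : ℂ := (mol n ε y : ℂ)

theorem mkc_contDiff (ε : ℝ) : ContDiff ℝ ∞ (mkc n ε) :=
  Complex.ofRealCLM.contDiff.comp (mol_contDiff ε)

theorem mkc_cont (ε : ℝ) : Continuous (mkc n ε) := (mkc_contDiff ε).continuous

theorem mkc_cs {ε : ℝ} (hε : 0 < ε) : HasCompactSupport (mkc n ε) :=
  (mol_cs hε).comp_left (g := ((↑) : ℝ → ℂ)) Complex.ofReal_zero

theorem norm_lt_of_mkc {ε : ℝ} (hε : 0 < ε) {y : Cn n} (h : mkc n ε y ≠ 0) : ‖y‖ < ε :=
  norm_lt_of_mol hε fun h' => h (by rw [mkc, h', Complex.ofReal_zero])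

theorem mkc_int {ε : ℝ} (hε : 0 < ε) : ∫ x, mkc n ε x = 1 := by
  unfold mkc
  rw [integral_complex_ofReal, mol_int hε, Complex.ofReal_one]

theorem mkc_rot (ε : ℝ) {c : ℂ} (hc : ‖c‖ = 1) (y : Cn n) : mkc n ε (c • y) = mkc n ε y := by
  unfold mkc
  rw [mol_rot ε hc]

theorem mollc_eq (f : Cn n → ℂ) (ε : ℝ) :
    mollc f ε = (f ⋆[ContinuousLinearMap.mul ℝ ℂ, volume] mkc n ε) := by
  funext x
  rw [convolution_eq_swap]
  rfl

theorem fderiv_mollc {f : Cn n → ℂ} (hf : LocallyIntegrable f) {ε : ℝ} (hε : 0 < ε)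
    (x v : Cn n) :
    fderiv ℝ (mollc f ε) x v = ∫ t, f t * fderiv ℝ (mkc n ε) (x - t) v := by
  rw [mollc_eq]
  have h1 := (mkc_cs (n := n) hε).hasFDerivAt_convolution_right (ContinuousLinearMap.mul ℝ ℂ)
    (μ := volume) hf ((mkc_contDiff ε).of_le (by simp)) x
  rw [h1.fderiv]
  exact convolution_precompR_apply (ContinuousLinearMap.mul ℝ ℂ) hf ((mkc_cs hε).fderiv ℝ)
    ((mkc_contDiff ε).continuous_fderiv (by simp)) x v

theorem derivc_cs {g : Cn n → ℂ} (hg : HasCompactSupport g) (v : Cn n) :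
    HasCompactSupport (fun y => fderiv ℝ g y v) := by
  refine (hg.fderiv ℝ).mono ?_
  intro y hy
  rw [Function.mem_support] at hy ⊢
  intro h
  apply hy
  rw [h]; rfl

theorem derivc_contDiff {g : Cn n → ℂ} (hg : ContDiff ℝ ∞ g) (v : Cn n) :
    ContDiff ℝ ∞ (fun y => fderiv ℝ g y v) :=
  (hg.fderiv_right (m := ∞) (by simp)).clm_apply contDiff_const

theorem integ_mk {f : Cn n → ℂ} (hf : LocallyIntegrable f) {ε : ℝ} (hε : 0 < ε) (x v : Cn n) :
    Integrable fun t => f t * fderiv ℝ (mkc n ε) (x - t) v :=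
  (derivc_cs (mkc_cs hε) v).convolutionExists_right (ContinuousLinearMap.mul ℝ ℂ) hf
    (derivc_contDiff (mkc_contDiff ε) v).continuous x

theorem cdb_mollc {f : Cn n → ℂ} (hf : LocallyIntegrable f) {ε : ℝ} (hε : 0 < ε) (l : Fin n)
    (x : Cn n) : cdb l (mollc f ε) x = ∫ t, f t * cdb l (mkc n ε) (x - t) := by
  unfold cdb
  rw [fderiv_mollc hf hε, fderiv_mollc hf hε, ← integral_const_mul, ← integral_add]
  · refine integral_congr_ae (Eventually.of_forall fun t => ?_)
    simp only []
    ring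
  · exact integ_mk hf hε x _
  · exact (integ_mk hf hε x _).const_mul _

theorem fderivc_reflect {g : Cn n → ℂ} (hg : ContDiff ℝ ∞ g) (x y v : Cn n) :
    fderiv ℝ (fun y => g (x - y)) y v = -(fderiv ℝ g (x - y) v) := by
  have h1 : HasFDerivAt (fun y : Cn n => x - y) (-(ContinuousLinearMap.id ℝ (Cn n))) y :=
    (hasFDerivAt_id y).const_sub x
  have h2 : HasFDerivAt g (fderiv ℝ g (x - y)) (x - y) :=
    (hg.differentiable (by simp) _).hasFDerivAt
  have h3 := h2.comp y h1
  have h4 : fderiv ℝ (fun y => g (x - y)) y =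
    (fderiv ℝ g (x - y)).comp (-(ContinuousLinearMap.id ℝ (Cn n))) := h3.fderiv
  rw [h4]
  simp

theorem tsupport_refl {ε : ℝ} (hε : 0 < ε) (x : Cn n) :
    tsupport (fun t => mkc n ε (x - t)) ⊆ closedBall x ε := by
  refine closure_minimal ?_ isClosed_closedBall
  intro y hy
  rw [mem_closedBall_iff_norm, norm_sub_rev]
  exact (norm_lt_of_mkc hε hy).le

theorem tsupport_mkc {ε : ℝ} (hε : 0 < ε) : tsupport (mkc n ε) ⊆ closedBall 0 ε := by
  refine closure_minimal ?_ isClosed_closedBall
  intro y hy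
  rw [mem_closedBall_zero_iff]
  exact (norm_lt_of_mkc hε hy).le

theorem fderiv_mkc_zero {ε : ℝ} (hε : 0 < ε) {t : Cn n} (ht : ε < ‖t‖) :
    fderiv ℝ (mkc n ε) t = 0 := by
  have h1 : t ∉ tsupport (mkc n ε) := by
    intro h
    have := tsupport_mkc hε h
    rw [mem_closedBall_zero_iff] at this
    linarith
  exact image_eq_zero_of_notMem_tsupport fun h => h1 (tsupport_fderiv_subset ℝ h)

/-- integrability of a function which is continuous on a compact set and vanishes elsewhere -/
theorem integ_of {C : Set (Cn n)} (hC : IsCompact C) {g : Cn n → ℂ} (hg : ContinuousOn g C)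
    (h0 : ∀ x ∉ C, g x = 0) : Integrable g := by
  have h1 : IntegrableOn g C := hg.integrableOn_compact hC
  have h2 : Function.support g ⊆ C := by
    intro y hy
    by_contra h
    exact hy (h0 y h)
  exact (integrableOn_iff_integrable_of_support_subset h2).1 h1

/-- integration by parts against the mollifier -/
theorem ibp_v {T : Set (Cn n)} (hT : IsOpen T) {h : Cn n → ℂ} (hh : ContDiffOn ℝ ∞ h T)
    {x : Cn n} {ε : ℝ} (hε : 0 < ε) (hx : closedBall x ε ⊆ T) (v : Cn n) :
    ∫ t, h t * fderiv ℝ (mkc n ε) (x - t) v = ∫ t, fderiv ℝ h t v * mkc n ε (x - t) := by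
  have hcb : IsCompact (closedBall x ε) := isCompact_closedBall x ε
  have hz1 : ∀ t ∉ closedBall x ε, mkc n ε (x - t) = 0 := by
    intro t ht
    by_contra h'
    apply ht
    rw [mem_closedBall_iff_norm, norm_sub_rev]
    exact (norm_lt_of_mkc hε h').le
  have hz2 : ∀ t ∉ closedBall x ε, fderiv ℝ (mkc n ε) (x - t) = 0 := by
    intro t ht
    apply fderiv_mkc_zero hε
    rw [mem_closedBall_iff_norm, norm_sub_rev, not_le] at ht
    exact ht
  have hs : ContDiff ℝ ∞ (fun t => mkc n ε (x - t)) :=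
    (mkc_contDiff ε).comp (contDiff_const.sub contDiff_id)
  have hhc : ContinuousOn h (closedBall x ε) := hh.continuousOn.mono hx
  have hhd : ContinuousOn (fun t => fderiv ℝ h t v) (closedBall x ε) := by
    have h1 : ContinuousOn (fderiv ℝ h) T := hh.continuousOn_fderiv_of_isOpen hT (by simp)
    exact (h1.mono hx).clm_apply continuousOn_const
  have hmc : Continuous fun t => mkc n ε (x - t) := hs.continuous
  have hmd : Continuous fun t => fderiv ℝ (mkc n ε) (x - t) v := by
    have h1 := (derivc_contDiff (mkc_contDiff (n := n) ε) v).continuous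
    exact h1.comp (continuous_const.sub continuous_id)
  have e1 : ∀ t, fderiv ℝ (fun t => mkc n ε (x - t)) t v = -(fderiv ℝ (mkc n ε) (x - t) v) :=
    fun t => fderivc_reflect (mkc_contDiff ε) x t v
  have key := integral_mul_fderiv_eq_neg_fderiv_mul_of_integrable (μ := (volume : Measure (Cn n)))
    (f := h) (g := fun t => mkc n ε (x - t)) (v := v) ?_ ?_ ?_ ?_ ?_
  · simp only [e1] at key
    have h2 : ∫ t, h t * -(fderiv ℝ (mkc n ε) (x - t) v) =
        - ∫ t, h t * fderiv ℝ (mkc n ε) (x - t) v := by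
      rw [← integral_neg]
      refine integral_congr_ae (Eventually.of_forall fun t => ?_)
      simp only []
      ring
    rw [h2] at key
    exact neg_injective key
  · refine integ_of hcb (hhd.mul hmc.continuousOn) fun t ht => ?_
    rw [hz1 t ht, mul_zero]
  · simp only [e1]
    refine integ_of hcb (hhc.mul hmd.continuousOn.neg) fun t ht => ?_
    rw [hz2 t ht]; simp
  · refine integ_of hcb (hhc.mul hmc.continuousOn) fun t ht => ?_
    rw [hz1 t ht, mul_zero]
  · intro t ht
    have ht' : t ∈ T := hx (tsupport_refl hε x ht)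
    exact (hh.differentiableOn (by simp)).differentiableAt (hT.mem_nhds ht')
  · intro t _
    exact hs.differentiable (by simp) t

theorem ibp_c {T : Set (Cn n)} (hT : IsOpen T) {h : Cn n → ℂ} (hh : ContDiffOn ℝ ∞ h T)
    {C : Set (Cn n)} (hCT : C ⊆ T)
    {x : Cn n} {ε : ℝ} (hε : 0 < ε) (hx : closedBall x ε ⊆ C) (l : Fin n) :
    ∫ t in C, h t * cdb l (mkc n ε) (x - t) = ∫ t in C, cdb l h t * mkc n ε (x - t) := by
  have hxT := hx.trans hCT
  have hcb : IsCompact (closedBall x ε) := isCompact_closedBall x ε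
  have hz1 : ∀ t ∉ closedBall x ε, mkc n ε (x - t) = 0 := by
    intro t ht
    by_contra h'
    apply ht
    rw [mem_closedBall_iff_norm, norm_sub_rev]
    exact (norm_lt_of_mkc hε h').le
  have hz2 : ∀ t ∉ closedBall x ε, fderiv ℝ (mkc n ε) (x - t) = 0 := by
    intro t ht
    apply fderiv_mkc_zero hε
    rw [mem_closedBall_iff_norm, norm_sub_rev, not_le] at ht
    exact ht
  have hhc : ContinuousOn h (closedBall x ε) := hh.continuousOn.mono hxT
  have hhd : ∀ v, ContinuousOn (fun t => fderiv ℝ h t v) (closedBall x ε) := by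
    intro v
    have h1 : ContinuousOn (fderiv ℝ h) T := hh.continuousOn_fderiv_of_isOpen hT (by simp)
    exact (h1.mono hxT).clm_apply continuousOn_const
  have hmc : Continuous fun t => mkc n ε (x - t) :=
    (mkc_cont ε).comp (continuous_const.sub continuous_id)
  have hmd : ∀ v, Continuous fun t => fderiv ℝ (mkc n ε) (x - t) v := by
    intro v
    have h1 := (derivc_contDiff (mkc_contDiff (n := n) ε) v).continuous
    exact h1.comp (continuous_const.sub continuous_id)
  rw [setIntegral_eq_integral_of_forall_compl_eq_zero (fun t ht => by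
      unfold cdb; rw [hz2 t (fun h' => ht (hx h'))]; simp),
    setIntegral_eq_integral_of_forall_compl_eq_zero (fun t ht => by
      rw [hz1 t (fun h' => ht (hx h')), mul_zero])]
  have h1 : ∀ v, Integrable fun t => h t * fderiv ℝ (mkc n ε) (x - t) v := fun v =>
    integ_of hcb (hhc.mul (hmd v).continuousOn) fun t ht => by rw [hz2 t ht]; simp
  have h2 : ∀ v, Integrable fun t => fderiv ℝ h t v * mkc n ε (x - t) := fun v =>
    integ_of hcb ((hhd v).mul hmc.continuousOn) fun t ht => by rw [hz1 t ht, mul_zero]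
  have e1 : ∫ t, h t * cdb l (mkc n ε) (x - t) =
      (∫ t, h t * fderiv ℝ (mkc n ε) (x - t) (Pi.single l 1)) +
        I * ∫ t, h t * fderiv ℝ (mkc n ε) (x - t) (Pi.single l I) := by
    rw [← integral_const_mul, ← integral_add (h1 _) ((h1 _).const_mul _)]
    refine integral_congr_ae (Eventually.of_forall fun t => ?_)
    simp only [cdb]
    ring
  have e2 : ∫ t, cdb l h t * mkc n ε (x - t) =
      (∫ t, fderiv ℝ h t (Pi.single l 1) * mkc n ε (x - t)) +
        I * ∫ t, fderiv ℝ h t (Pi.single l I) * mkc n ε (x - t) := by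
    rw [← integral_const_mul, ← integral_add (h2 _) ((h2 _).const_mul _)]
    refine integral_congr_ae (Eventually.of_forall fun t => ?_)
    simp only [cdb]
    ring
  rw [e1, e2, ibp_v hT hh hε hxT, ibp_v hT hh hε hxT]

/-- `L2` convergence to zero implies weak convergence to zero -/
theorem weak_zero {C : Set (Cn n)} (hC : IsCompact C) {u : ℕ → Cn n → ℂ}
    (hu : ∀ j, MemLp (u j) 2 (volume.restrict C))
    (h : Tendsto (fun j => ∫ x in C, ‖u j x‖ ^ 2) atTop (𝓝 0)) {k : Cn n → ℂ}
    (hk : Continuous k) : Tendsto (fun j => ∫ x in C, u j x * k x) atTop (𝓝 0) := by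
  have hk2 : IntegrableOn (fun x => ‖k x‖ ^ 2) C :=
    (hk.norm.pow 2).continuousOn.integrableOn_compact hC
  set A : ℝ := ∫ x in C, ‖k x‖ ^ 2 with hA
  have hA0 : 0 ≤ A := integral_nonneg fun x => by positivity
  rw [Metric.tendsto_nhds]
  intro η hη
  set δ : ℝ := η / (A + 1) with hδ
  have hδ0 : 0 < δ := by positivity
  have hδA : δ * A < η := by
    rw [hδ, div_mul_eq_mul_div, div_lt_iff₀ (by positivity)]
    nlinarith
  have hev := h.eventually (gt_mem_nhds (show (0 : ℝ) < δ * η by positivity))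
  filter_upwards [hev] with j hj
  have hu2 : IntegrableOn (fun x => ‖u j x‖ ^ 2) C := by
    have h0 : Integrable (fun x => ‖u j x‖ ^ 2) (volume.restrict C) := by
      simpa using (hu j).integrable_norm_pow (p := 2) (by simp)
    exact h0
  rw [dist_zero_right]
  have h1 : ‖∫ x in C, u j x * k x‖ ≤ ∫ x in C, ((1 / (2 * δ)) * ‖u j x‖ ^ 2 +
      (δ / 2) * ‖k x‖ ^ 2) := by
    refine norm_integral_le_of_norm_le ((hu2.const_mul _).add (hk2.const_mul _))
      (Eventually.of_forall fun x => ?_)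
    rw [norm_mul]
    have h2 : 0 ≤ (1 / (2 * δ)) * (‖u j x‖ - δ * ‖k x‖) ^ 2 := by positivity
    have h3 : (1 / (2 * δ)) * (‖u j x‖ - δ * ‖k x‖) ^ 2 =
      (1 / (2 * δ)) * ‖u j x‖ ^ 2 + (δ / 2) * ‖k x‖ ^ 2 - ‖u j x‖ * ‖k x‖ := by
      field_simp
      ring
    linarith
  rw [integral_add (hu2.const_mul _) (hk2.const_mul _), integral_const_mul,
    integral_const_mul] at h1
  have h4 : (1 / (2 * δ)) * (∫ x in C, ‖u j x‖ ^ 2) < η / 2 := by
    rw [one_div, inv_mul_lt_iff₀ (by positivity)]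
    linarith
  have h5 : (δ / 2) * A < η / 2 := by linarith
  linarith

theorem memLp_of_cont {C : Set (Cn n)} (hC : IsCompact C) {g : Cn n → ℂ}
    (hg : ContinuousOn g C) : MemLp g 2 (volume.restrict C) := by
  have : Fact (volume C < ⊤) := ⟨hC.measure_lt_top⟩
  obtain ⟨B, hB⟩ := hC.exists_bound_of_continuousOn hg
  refine MemLp.of_bound (hg.aestronglyMeasurable hC.measurableSet) B ?_
  exact (ae_restrict_iff' hC.measurableSet).2 (Eventually.of_forall fun x hx => hB x hx)

theorem ind_integ {C : Set (Cn n)} (hC : IsCompact C) {f : Cn n → ℂ}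
    (hf : MemLp f 2 (volume.restrict C)) : Integrable (C.indicator f) := by
  have : Fact (volume C < ⊤) := ⟨hC.measure_lt_top⟩
  exact (integrable_indicator_iff hC.measurableSet).2 (hf.integrable (by norm_num))

theorem cdb_mollc_zero {T C : Set (Cn n)} (hT : IsOpen T) (hCT : C ⊆ T) (hC : IsCompact C)
    {h : ℕ → Cn n → ℂ} {f : Cn n → ℂ} (hh : ∀ j, ContDiffOn ℝ ∞ (h j) T)
    (hf : MemLp f 2 (volume.restrict C))
    (h1 : Tendsto (fun j => ∫ x in C, ‖h j x - f x‖ ^ 2) atTop (𝓝 0))
    (h2 : Tendsto (fun j => ∫ x in C, ∑ l, ‖cdb l (h j) x‖ ^ 2) atTop (𝓝 0))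
    {x : Cn n} {ε : ℝ} (hε : 0 < ε) (hx : closedBall x ε ⊆ C) (l : Fin n) :
    cdb l (mollc (C.indicator f) ε) x = 0 := by
  have hFi := ind_integ hC hf
  rw [cdb_mollc hFi.locallyIntegrable hε]
  set k : Cn n → ℂ := fun t => cdb l (mkc n ε) (x - t) with hk
  have hkc : Continuous k := by
    have hmd : ∀ v, Continuous fun t => fderiv ℝ (mkc n ε) (x - t) v := by
      intro v
      have h1 := (derivc_contDiff (mkc_contDiff (n := n) ε) v).continuous
      exact h1.comp (continuous_const.sub continuous_id)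
    exact (hmd _).add (continuous_const.mul (hmd _))
  have hmc : Continuous fun t => mkc n ε (x - t) :=
    (mkc_cont ε).comp (continuous_const.sub continuous_id)
  have e : ∫ t, C.indicator f t * cdb l (mkc n ε) (x - t) = ∫ t in C, f t * k t := by
    rw [← integral_indicator hC.measurableSet]
    refine integral_congr_ae (Eventually.of_forall fun t => ?_)
    simp only []
    by_cases ht : t ∈ C
    · rw [indicator_of_mem ht, indicator_of_mem ht]
    · rw [indicator_of_notMem ht, indicator_of_notMem ht, zero_mul]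
  rw [e]
  have hhC : ∀ j, ContinuousOn (h j) C := fun j => (hh j).continuousOn.mono hCT
  have hhd : ∀ j, ∀ v, ContinuousOn (fun t => fderiv ℝ (h j) t v) C := by
    intro j v
    have h1 : ContinuousOn (fderiv ℝ (h j)) T := (hh j).continuousOn_fderiv_of_isOpen hT (by simp)
    exact (h1.mono hCT).clm_apply continuousOn_const
  have hcd : ∀ j, ∀ l, ContinuousOn (cdb l (h j)) C := fun j l =>
    (hhd j _).add (continuousOn_const.mul (hhd j _))
  have a := weak_zero hC (u := fun j x => h j x - f x)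
    (fun j => (memLp_of_cont hC (hhC j)).sub hf) h1 hkc
  have b : Tendsto (fun j => ∫ t in C, cdb l (h j) t * mkc n ε (x - t)) atTop (𝓝 0) := by
    refine weak_zero hC (u := fun j => cdb l (h j)) (fun j => memLp_of_cont hC (hcd j l)) ?_ hmc
    refine squeeze_zero (fun j => integral_nonneg fun x => by positivity) (fun j => ?_) h2
    refine setIntegral_mono_on ?_ ?_ hC.measurableSet fun t _ => ?_
    · exact ((hcd j l).norm.pow 2).integrableOn_compact hC
    · exact (continuousOn_finsetSum _ fun l _ => (hcd j l).norm.pow 2).integrableOn_compact hC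
    · exact Finset.single_le_sum (f := fun l => ‖cdb l (h j) t‖ ^ 2)
        (fun l _ => sq_nonneg _) (Finset.mem_univ l)
  have c : ∀ j, ∫ t in C, f t * k t = (∫ t in C, cdb l (h j) t * mkc n ε (x - t)) -
      ∫ t in C, (h j t - f t) * k t := by
    intro j
    rw [← ibp_c hT (hh j) hCT hε hx l, ← integral_sub]
    · refine integral_congr_ae (Eventually.of_forall fun t => ?_)
      simp only [hk]
      ring
    · exact ((hhC j).mul hkc.continuousOn).integrableOn_compact hC
    · have h3 : MemLp (fun t => h j t - f t) 2 (volume.restrict C) :=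
        (memLp_of_cont hC (hhC j)).sub hf
      exact h3.integrable_mul (memLp_of_cont hC hkc.continuousOn)
  have d : Tendsto (fun _ : ℕ => ∫ t in C, f t * k t) atTop (𝓝 (0 - 0)) :=
    (b.sub a).congr fun j => (c j).symm
  rw [sub_zero] at d
  exact tendsto_nhds_unique tendsto_const_nhds d

theorem mollc_rot (U : Cn n → ℂ) (ε : ℝ) (x : Cn n) {c : ℂ} (hc : ‖c‖ = 1) :
    ∫ y, U (x + c • (-y)) * mkc n ε y = mollc U ε x := by
  have hc0 : c ≠ 0 := by
    intro h
    rw [h, norm_zero] at hc
    exact zero_ne_one hc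
  have h1 := (rot_mp (n := n) hc).integral_comp (measurableEmbedding_const_smul₀ hc0)
    (fun z => U (x - z) * mkc n ε z)
  have h2 : mollc U ε x = ∫ z, U (x - z) * mkc n ε z := rfl
  rw [h2, ← h1]
  refine integral_congr_ae (Eventually.of_forall fun y => ?_)
  simp only []
  rw [mkc_rot ε hc, smul_neg, sub_eq_add_neg]

/-- mollification does not change holomorphic functions -/
theorem mollc_self {U : Cn n → ℂ} {W : Set (Cn n)} (hU : DifferentiableOn ℂ U W)
    {x : Cn n} {ε : ℝ} (hε : 0 < ε) (hx : closedBall x ε ⊆ W) : mollc U ε x = U x := by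
  set B : Set (Cn n) := closedBall 0 ε with hB
  have hin : ∀ c : ℂ, ‖c‖ ≤ 1 → ∀ y ∈ B, x + c • (-y) ∈ W := by
    intro c hc y hy
    apply hx
    rw [mem_closedBall_iff_norm, add_sub_cancel_left, norm_smul, norm_neg]
    rw [hB, mem_closedBall_zero_iff] at hy
    calc ‖c‖ * ‖y‖ ≤ 1 * ε := mul_le_mul hc hy (norm_nonneg _) zero_le_one
      _ = ε := one_mul _
  have hc1 : ∀ θ : ℝ, ‖circleMap 0 1 θ‖ = 1 := fun θ => by rw [norm_circleMap_zero, abs_one]
  have hz : ∀ y ∉ B, mkc n ε y = 0 := by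
    intro y hy
    by_contra h
    apply hy
    rw [hB, mem_closedBall_zero_iff]
    exact (norm_lt_of_mkc hε h).le
  set F : ℝ → Cn n → ℂ := fun θ y => U (x + circleMap 0 1 θ • (-y)) * mkc n ε y with hF
  have h0 : ∀ θ : ℝ, ∫ y in B, F θ y = mollc U ε x := by
    intro θ
    rw [setIntegral_eq_integral_of_forall_compl_eq_zero (fun y hy => by
      simp only [hF]; rw [hz y hy, mul_zero])]
    exact mollc_rot U ε x (hc1 θ)
  have hpi : (0 : ℝ) ≤ 2 * Real.pi := by positivity
  have hcont : ContinuousOn (Function.uncurry F) (Icc 0 (2 * Real.pi) ×ˢ B) := by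
    have h1 : ContinuousOn (fun p : ℝ × Cn n => U (x + circleMap 0 1 p.1 • (-p.2)))
        (Icc 0 (2 * Real.pi) ×ˢ B) := by
      refine hU.continuousOn.comp ?_ ?_
      · have h2 : Continuous fun p : ℝ × Cn n => x + circleMap 0 1 p.1 • (-p.2) := by
          have h3 := continuous_circleMap 0 1
          fun_prop
        exact h2.continuousOn
      · rintro ⟨θ, y⟩ ⟨-, hy⟩
        exact hin _ (hc1 θ).le y hy
    exact h1.mul ((mkc_cont ε).comp continuous_snd).continuousOn
  have hint : Integrable (Function.uncurry F)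
      ((volume.restrict (Ioc 0 (2 * Real.pi))).prod (volume.restrict B)) := by
    rw [Measure.prod_restrict]
    have h1 : IntegrableOn (Function.uncurry F) (Icc 0 (2 * Real.pi) ×ˢ B)
        (volume.prod volume) :=
      hcont.integrableOn_compact (isCompact_Icc.prod (isCompact_closedBall _ _))
    exact h1.mono_set (prod_mono Ioc_subset_Icc_self le_rfl)
  have hswap := integral_integral_swap hint
  have hl : ∫ θ in Ioc 0 (2 * Real.pi), ∫ y in B, F θ y = (2 * Real.pi : ℝ) • mollc U ε x := by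
    rw [integral_congr_ae (Eventually.of_forall h0), integral_const]
    simp [hpi]
  have hr : ∫ y in B, ∫ θ in Ioc 0 (2 * Real.pi), F θ y = (2 * Real.pi : ℝ) • U x := by
    have h1 : ∀ y ∈ B, ∫ θ in Ioc 0 (2 * Real.pi), F θ y =
        ((2 * Real.pi : ℝ) • U x) * mkc n ε y := by
      intro y hy
      have hdc : DiffContOnCl ℂ (fun ζ : ℂ => U (x + ζ • (-y))) (ball (0 : ℂ) |1|) := by
        refine DifferentiableOn.diffContOnCl ?_
        rw [abs_one, closure_ball (0 : ℂ) one_ne_zero]
        refine hU.comp ?_ ?_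
        · fun_prop
        · intro ζ hζ
          rw [mem_closedBall_zero_iff] at hζ
          exact hin ζ hζ y hy
      have h2 := hdc.circleAverage
      rw [zero_smul, add_zero, Real.circleAverage_def] at h2
      have h4 : (∫ θ in 0..2 * Real.pi, U (x + circleMap 0 1 θ • (-y))) =
          (2 * Real.pi : ℝ) • U x := by
        rw [← h2, smul_smul, mul_inv_cancel₀ (by positivity), one_smul]
      rw [← h4, intervalIntegral.integral_of_le hpi, ← integral_mul_const]
    rw [setIntegral_congr_fun measurableSet_closedBall h1, integral_const_mul,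
      setIntegral_eq_integral_of_forall_compl_eq_zero hz, mkc_int hε, mul_one]
  rw [hl, hr] at hswap
  exact smul_right_injective ℂ (show (2 * Real.pi : ℝ) ≠ 0 by positivity) hswap

/-! ## Two mollifications commute -/

theorem convc_comm (g h : Cn n → ℂ) :
    (g ⋆[ContinuousLinearMap.mul ℝ ℂ, volume] h) =
      (h ⋆[ContinuousLinearMap.mul ℝ ℂ, volume] g) := by
  funext x
  rw [convolution_eq_swap]
  refine integral_congr_ae (Eventually.of_forall fun t => ?_)
  simp only [ContinuousLinearMap.mul_apply']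
  ring

theorem convc_assoc {f : Cn n → ℂ} (hf : LocallyIntegrable f) {ε ε' : ℝ} (hε : 0 < ε)
    (hε' : 0 < ε') (x : Cn n) :
    ((f ⋆[ContinuousLinearMap.mul ℝ ℂ, volume] mkc n ε)
        ⋆[ContinuousLinearMap.mul ℝ ℂ, volume] mkc n ε') x =
      (f ⋆[ContinuousLinearMap.mul ℝ ℂ, volume]
        (mkc n ε ⋆[ContinuousLinearMap.mul ℝ ℂ, volume] mkc n ε')) x := by
  refine convolution_assoc (ContinuousLinearMap.mul ℝ ℂ) (ContinuousLinearMap.mul ℝ ℂ)
    (ContinuousLinearMap.mul ℝ ℂ) (ContinuousLinearMap.mul ℝ ℂ)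
    (fun a b c => by simp [mul_assoc]) hf.aestronglyMeasurable
    (mkc_cont ε).aestronglyMeasurable (mkc_cont ε').aestronglyMeasurable
    (Eventually.of_forall fun y => (mkc_cs hε).convolutionExists_right _ hf (mkc_cont ε) y)
    (Eventually.of_forall fun y => (mkc_cs hε').norm.convolutionExists_right _
      (mkc_cont ε).norm.locallyIntegrable (mkc_cont ε').norm y) ?_
  refine HasCompactSupport.convolutionExists_right _
    ((mkc_cs hε).norm.convolution _ (mkc_cs hε').norm)
    (fun x => let ⟨s, hs, h⟩ := hf x; ⟨s, hs, h.norm⟩) ?_ x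
  exact (mkc_cs hε').norm.continuous_convolution_right _ (mkc_cont ε).norm.locallyIntegrable
    (mkc_cont ε').norm

theorem mollc_comm {f : Cn n → ℂ} (hf : LocallyIntegrable f) {ε ε' : ℝ} (hε : 0 < ε)
    (hε' : 0 < ε') (x : Cn n) : mollc (mollc f ε) ε' x = mollc (mollc f ε') ε x := by
  rw [mollc_eq (mollc f ε), mollc_eq (mollc f ε'), mollc_eq f, mollc_eq f,
    convc_assoc hf hε hε', convc_assoc hf hε' hε, convc_comm (mkc n ε) (mkc n ε')]

theorem local_holo (hWIRT : S_WIRT) (hMOL2 : S_MOL2) {T : Set (Cn n)} (hT : IsOpen T)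
    {h : ℕ → Cn n → ℂ} {f : Cn n → ℂ} (hh : ∀ j, ContDiffOn ℝ ∞ (h j) T)
    (H : ∀ C ⊆ T, IsCompact C → MemLp f 2 (volume.restrict C) ∧
      Tendsto (fun j => ∫ x in C, ‖h j x - f x‖ ^ 2) atTop (𝓝 0) ∧
      Tendsto (fun j => ∫ x in C, ∑ l, ‖cdb l (h j) x‖ ^ 2) atTop (𝓝 0)) {x₀ : Cn n}
    (hx₀ : x₀ ∈ T) : ∃ (r : ℝ) (g : Cn n → ℂ), 0 < r ∧ ball x₀ r ⊆ T ∧
      DifferentiableOn ℂ g (ball x₀ r) ∧ ∀ᵐ x ∂(volume.restrict (ball x₀ r)), f x = g x := by
  obtain ⟨ε₀, hε₀, hball⟩ := Metric.nhds_basis_closedBall.mem_iff.1 (hT.mem_nhds hx₀)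
  set C : Set (Cn n) := closedBall x₀ ε₀ with hCdef
  have hC : IsCompact C := isCompact_closedBall _ _
  obtain ⟨hf, h1, h2⟩ := H C hball hC
  set F : Cn n → ℂ := C.indicator f with hF
  have hFi : Integrable F := ind_integ hC hf
  have hF2 : MemLp F 2 volume := (memLp_indicator_iff_restrict hC.measurableSet).2 hf
  obtain ⟨hsm, hlim⟩ := hMOL2 F hF2
  set r : ℝ := ε₀ / 3 with hr
  have hr0 : 0 < r := by positivity
  have hol : ∀ ε, 0 < ε → ε ≤ r → DifferentiableOn ℂ (mollc F ε) (ball x₀ (2 * r)) := by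
    intro ε hε hεr
    have h3 := hWIRT (ball x₀ (2 * r)) isOpen_ball (mollc F ε) (mollc F ε)
      (hsm ε hε).1.contDiffOn (hsm ε hε).1.contDiffOn
    refine h3.2.2.2.2.2.1 fun l x hx => ?_
    refine cdb_mollc_zero hT hball hC hh hf h1 h2 hε ?_ l
    refine closedBall_subset_closedBall' ?_
    rw [mem_ball] at hx
    rw [hr] at hεr hx
    linarith
  have heq : ∀ ε, 0 < ε → ε ≤ r → ∀ x ∈ ball x₀ r, mollc F ε x = mollc F r x := by
    intro ε hε hεr x hx
    rw [mem_ball] at hx
    have h3 : mollc (mollc F ε) r x = mollc F ε x :=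
      mollc_self (hol ε hε hεr) hr0 (closedBall_subset_ball' (by linarith))
    have h4 : mollc (mollc F r) ε x = mollc F r x :=
      mollc_self (hol r hr0 le_rfl) hε (closedBall_subset_ball' (by linarith))
    rw [← h3, ← h4, mollc_comm hFi.locallyIntegrable hε hr0]
  have hint : ∀ ε, 0 < ε → Integrable (fun x => ‖mollc F ε x - F x‖ ^ 2) volume := by
    intro ε hε
    have h3 : MemLp (fun x => mollc F ε x - F x) 2 volume := (hsm ε hε).2.1.sub hF2
    simpa using h3.integrable_norm_pow (p := 2) (by simp)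
  have hz : ∫ x in ball x₀ r, ‖mollc F r x - F x‖ ^ 2 = 0 := by
    refine le_antisymm ?_ (integral_nonneg fun x => by positivity)
    refine ge_of_tendsto hlim ?_
    have hpos : ∀ᶠ ε in 𝓝[>] (0 : ℝ), 0 < ε := eventually_mem_nhdsWithin
    have hlt : ∀ᶠ ε in 𝓝[>] (0 : ℝ), ε < r :=
      eventually_nhdsWithin_of_eventually_nhds (eventually_lt_nhds hr0)
    filter_upwards [hpos, hlt] with ε hε hε'
    have h3 : ∫ x in ball x₀ r, ‖mollc F r x - F x‖ ^ 2 =
        ∫ x in ball x₀ r, ‖mollc F ε x - F x‖ ^ 2 := by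
      refine setIntegral_congr_fun measurableSet_ball fun x hx => ?_
      rw [heq ε hε hε'.le x hx]
    rw [h3]
    exact setIntegral_le_integral (hint ε hε) (Eventually.of_forall fun x => by positivity)
  have hae : ∀ᵐ x ∂(volume.restrict (ball x₀ r)), ‖mollc F r x - F x‖ ^ 2 = 0 := by
    have h3 := (integral_eq_zero_iff_of_nonneg (μ := volume.restrict (ball x₀ r))
      (f := fun x => ‖mollc F r x - F x‖ ^ 2) (fun x => by positivity)
      (hint r hr0).integrableOn).1 hz
    exact h3
  have hsub : ball x₀ r ⊆ C := ball_subset_closedBall.trans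
    (closedBall_subset_closedBall (by rw [hr]; linarith))
  refine ⟨r, mollc F r, hr0, hsub.trans hball,
    (hol r hr0 le_rfl).mono (ball_subset_ball (by linarith)), ?_⟩
  filter_upwards [hae, ae_restrict_mem measurableSet_ball] with x hx hxb
  have h3 : mollc F r x - F x = 0 := by
    rw [pow_eq_zero_iff (by norm_num), norm_eq_zero] at hx
    exact hx
  rw [sub_eq_zero] at h3
  rw [h3, hF, indicator_of_mem (hsub hxb)]

theorem holl (hWIRT : S_WIRT) (hMOL2 : S_MOL2) : S_HOLL := by
  intro n T hT h f hh H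
  have hloc : ∀ x : Cn n, ∃ (r : ℝ) (g : Cn n → ℂ), x ∈ T → (0 < r ∧ ball x r ⊆ T ∧
      DifferentiableOn ℂ g (ball x r) ∧ ∀ᵐ y ∂(volume.restrict (ball x r)), f y = g y) := by
    intro x
    by_cases hx : x ∈ T
    · obtain ⟨r, g, hrg⟩ := local_holo hWIRT hMOL2 hT hh H hx
      exact ⟨r, g, fun _ => hrg⟩
    · exact ⟨0, 0, fun h' => absurd h' hx⟩
  choose r g hg using hloc
  have hgl : ∀ x ∈ T, ∀ y ∈ ball x (r x), g y y = g x y := by
    intro x hx y hy
    have hyT : y ∈ T := (hg x hx).2.1 hy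
    set V : Set (Cn n) := ball x (r x) ∩ ball y (r y) with hV
    have hVo : IsOpen V := isOpen_ball.inter isOpen_ball
    have h1 : ∀ᵐ z ∂(volume.restrict V), f z = g x z :=
      ae_restrict_of_ae_restrict_of_subset inter_subset_left (hg x hx).2.2.2
    have h2 : ∀ᵐ z ∂(volume.restrict V), f z = g y z :=
      ae_restrict_of_ae_restrict_of_subset inter_subset_right (hg y hyT).2.2.2
    have h3 : g y =ᵐ[volume.restrict V] g x := by
      filter_upwards [h1, h2] with z hz1 hz2
      rw [← hz1, ← hz2]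
    exact Measure.eqOn_open_of_ae_eq h3 hVo
      ((hg y hyT).2.2.1.continuousOn.mono inter_subset_right)
      ((hg x hx).2.2.1.continuousOn.mono inter_subset_left)
      ⟨hy, mem_ball_self (hg y hyT).1⟩
  refine ⟨fun x => g x x, ?_, ?_⟩
  · intro x hx
    have h1 : (fun x => g x x) =ᶠ[𝓝 x] g x := by
      filter_upwards [ball_mem_nhds x (hg x hx).1] with y hy
      exact hgl x hx y hy
    have h2 : DifferentiableAt ℂ (g x) x :=
      (hg x hx).2.2.1.differentiableAt (ball_mem_nhds x (hg x hx).1)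
    exact (h1.differentiableAt_iff.2 h2).differentiableWithinAt
  · rw [ae_restrict_iff' hT.measurableSet, ae_iff]
    refine measure_null_of_locally_null _ fun x hx => ?_
    have hxT : x ∈ T := by
      by_contra h'
      exact hx fun h'' => absurd h'' h'
    refine ⟨ball x (r x) ∩ {a | ¬ (a ∈ T → f a = g a a)}, ?_, ?_⟩
    · exact inter_mem (mem_nhdsWithin_of_mem_nhds (ball_mem_nhds x (hg x hxT).1))
        self_mem_nhdsWithin
    · have h1 := (hg x hxT).2.2.2
      rw [ae_restrict_iff' measurableSet_ball, ae_iff] at h1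
      refine measure_mono_null ?_ h1
      rintro y ⟨hy1, hy2⟩ hy3
      apply hy2
      intro _
      rw [hgl x hxT y hy1]
      exact hy3 hy1

end Pool.Agent.Helper19.SP
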