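import Pool.Agent.Helper10.SP.GoalsK
import Pool.Agent.Helper35.SP.Basic
import Pool.Agent.Helper24.Abund.FundMass

/-!
# Packet SP-XLIM: a section which does not vanish over a given point
-/

open Complex Metric Set Filter Topology MeasureTheory
open scoped ContDiff ComplexConjugate ComplexOrder Manifold

namespace Pool.Agent.Helper19.SP

open Pool.Agent.Helper95.Lin Pool.Agent.Helper16.Abund Pool.Agent.Helper92.Orb
open Pool.Agent.Helper10.SP

universe u v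

/-! ## Real analysis -/

theorem integ_test {n : ℕ} {T : Set (Cn n)} {κ : Cn n → ℝ} (hκ : TestF T κ) {F : Cn n → ℝ}
    (hF : ContinuousOn F T) : Integrable (fun x => κ x * F x) := by
  have hK : IsCompact (tsupport κ) := hκ.2.1.isCompact
  have h1 : IntegrableOn (fun x => κ x * F x) (tsupport κ) :=
    (hκ.1.continuous.continuousOn.mul (hF.mono hκ.2.2)).integrableOn_compact hK
  refine (integrableOn_iff_integrable_of_support_subset ?_).1 h1
  intro x hx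
  by_contra h
  exact hx (by simp [image_eq_zero_of_notMem_tsupport h])

theorem integ_ns {n : ℕ} {T : Set (Cn n)} {κ : Cn n → ℝ} (hκ : TestF T κ) {W : Cn n → ℝ}
    (hW : ContinuousOn W T) {s : Cn n → ℂ} (hs : ContinuousOn s T) :
    IntegrableOn (fun x => κ x * W x * ‖s x‖ ^ 2) T := by
  have h1 := integ_test hκ (F := fun x => W x * ‖s x‖ ^ 2) (hW.mul (hs.norm.pow 2))
  have h2 : (fun x => κ x * W x * ‖s x‖ ^ 2) = fun x => κ x * (W x * ‖s x‖ ^ 2) := by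
    funext x
    ring
  rw [h2]
  exact h1.integrableOn

theorem cont_base (b : ℕ) : Continuous (base : Cn (b + 1) → Cn b) :=
  continuous_pi fun _ => continuous_apply _

theorem fub {b : ℕ} {F : Cn b → ℝ} (hF : Continuous F) {U : Set (Cn b)} (hU : MeasurableSet U)
    {V : Set (Fin 1 → ℂ)} (hV : MeasurableSet V) :
    ∫ x in {x : Cn (b + 1) | base x ∈ U ∧ fib (k := 1) x ∈ V}, F (base x) =
      (∫ z in U, F z) * (volume V).toReal := by
  have hmp := Helper24.Abund.measurePreserving_baseFib b 1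
  have h1 := setIntegral_map (μ := (volume : Measure (Cn (b + 1))))
    (g := fun v : Fin (b + 1) → ℂ => (base v, fib v)) (s := U ×ˢ V)
    (f := fun p : Cn b × (Fin 1 → ℂ) => F p.1) (hU.prod hV)
    (hF.comp continuous_fst).aestronglyMeasurable hmp.measurable.aemeasurable
  rw [hmp.map_eq] at h1
  have h2 : ∫ y in U ×ˢ V, F y.1 * (1 : ℝ) ∂(volume : Measure (Cn b × (Fin 1 → ℂ))) =
      (∫ z in U, F z) * ∫ w in V, (1 : ℝ) := setIntegral_prod_mul F (fun _ => 1) U V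
  simp only [mul_one] at h2
  rw [h1] at h2
  rw [setIntegral_const, smul_eq_mul, mul_one] at h2
  exact h2

theorem box_sub {b : ℕ} (z₀ : Cn b) {r : ℝ} (hr : 0 < r) :
    {x : Cn (b + 1) | base x ∈ ball z₀ r ∧ fib (k := 1) x ∈ ball (0 : Fin 1 → ℂ) r} ⊆
      ball (pt z₀ 0) r := by
  rintro x ⟨h1, h2⟩
  rw [mem_ball_iff_norm, pi_norm_lt_iff hr] at h1 h2 ⊢
  intro j
  refine Fin.addCases (fun i => ?_) (fun i => ?_) j
  · have := h1 i
    simpa [pt, base] using this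
  · have := h2 i
    simpa [pt, fib] using this

theorem Bd_mono {b N : ℕ} (c : Fin N → Cn b) {r r' : ℝ} (h : r ≤ r') : Bd c r ⊆ Bd c r' :=
  iUnion_mono fun _ => ball_subset_ball h

theorem lev_zero_vec {n : ℕ} (φ : Cn n → ℝ) (x : Cn n) : lev φ x 0 = 0 := by
  unfold lev hess
  simp

theorem exp_neg_log {X e : ℝ} {b : ℕ} (hX : 0 < X) (h : e ≤ b * Real.log X) :
    (X ^ b)⁻¹ ≤ Real.exp (-e) := by
  have h1 : (X ^ b)⁻¹ = Real.exp (-(b * Real.log X)) := by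
    rw [Real.exp_neg, mul_comm, Real.exp_mul, Real.exp_log hX, Real.rpow_natCast]
  rw [h1]
  exact Real.exp_le_exp.2 (by linarith)

/-- The two estimates of the norms. -/
theorem ns_bound {n : ℕ} {T : Set (Cn n)} (hT : MeasurableSet T) {κ : Cn n → ℝ} (hκ : TestF T κ)
    (h0 : ∀ x, 0 ≤ κ x) {W W' : Cn n → ℝ} (hW : ContinuousOn W T) (hW' : ContinuousOn W' T)
    (hWW : ∀ x ∈ T, 0 ≤ W' x ∧ W' x ≤ W x) {f g : Cn n → ℂ} (hf : ContinuousOn f T)
    (hg : ContinuousOn g T) {A : ℝ} (hA : nsE T κ W (fun x => f x - g x) ≤ A) :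
    nsE T κ W' g ≤ 2 * nsE T κ W' f + 2 * A := by
  have i1 := integ_ns hκ hW' hg
  have i2 := integ_ns hκ hW' hf
  have i3 : IntegrableOn (fun x => κ x * W x * ‖f x - g x‖ ^ 2) T := integ_ns hκ hW (hf.sub hg)
  have h1 : nsE T κ W' g ≤ ∫ x in T, (2 * (κ x * W' x * ‖f x‖ ^ 2) +
      2 * (κ x * W x * ‖f x - g x‖ ^ 2)) := by
    refine setIntegral_mono_on i1 ((i2.const_mul 2).add (i3.const_mul 2)) hT fun x hx => ?_
    have h2 : ‖g x‖ ^ 2 ≤ 2 * ‖f x‖ ^ 2 + 2 * ‖f x - g x‖ ^ 2 := by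
      have h3 : ‖g x‖ ≤ ‖f x‖ + ‖f x - g x‖ := by
        have h4 : g x = f x - (f x - g x) := by ring
        calc ‖g x‖ = ‖f x - (f x - g x)‖ := by rw [← h4]
          _ ≤ _ := norm_sub_le _ _
      nlinarith [sq_nonneg (‖f x‖ - ‖f x - g x‖), norm_nonneg (g x), norm_nonneg (f x),
        norm_nonneg (f x - g x)]
    have h5 : 0 ≤ κ x * W' x := mul_nonneg (h0 x) (hWW x hx).1
    have h6 : κ x * W' x ≤ κ x * W x := mul_le_mul_of_nonneg_left (hWW x hx).2 (h0 x)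
    have h7 : κ x * W' x * ‖f x - g x‖ ^ 2 ≤ κ x * W x * ‖f x - g x‖ ^ 2 :=
      mul_le_mul_of_nonneg_right h6 (sq_nonneg _)
    nlinarith [mul_le_mul_of_nonneg_left h2 h5]
  rw [integral_add (i2.const_mul 2) (i3.const_mul 2), integral_const_mul,
    integral_const_mul] at h1
  have h2 : nsE T κ W (fun x => f x - g x) = ∫ x in T, κ x * W x * ‖f x - g x‖ ^ 2 := rfl
  have h3 : nsE T κ W' f = ∫ x in T, κ x * W' x * ‖f x‖ ^ 2 := rfl
  rw [← h2, ← h3] at h1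
  linarith

/-- The lower bound by the non integrable function. -/
theorem ns_lower {b : ℕ} {T : Set (Cn (b + 1))} (hT : MeasurableSet T) {κ : Cn (b + 1) → ℝ}
    (hκ : TestF T κ) (h0 : ∀ x, 0 ≤ κ x) {W : Cn (b + 1) → ℝ} (hW : ContinuousOn W T)
    (hWp : ∀ x ∈ T, 0 ≤ W x) {s : Cn (b + 1) → ℂ} (hs : ContinuousOn s T) {z₀ : Cn b} {r : ℝ}
    (hr : 0 < r) (hsub : ball (pt z₀ 0) r ⊆ T) {c₁ : ℝ} {K ε : ℝ} (hK : 0 < K)
    (hε : 0 < ε)
    (hlow : ∀ x ∈ ball (pt z₀ 0) r, c₁ * ((K * (‖base x - z₀‖ ^ 2 + ε ^ 2)) ^ b)⁻¹ ≤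
      κ x * W x * ‖s x‖ ^ 2) :
    c₁ * ((∫ z in ball z₀ r, ((K * (‖z - z₀‖ ^ 2 + ε ^ 2)) ^ b)⁻¹) *
      (volume (ball (0 : Fin 1 → ℂ) r)).toReal) ≤ nsE T κ W s := by
  set B : Set (Cn (b + 1)) :=
    {x : Cn (b + 1) | base x ∈ ball z₀ r ∧ fib (k := 1) x ∈ ball (0 : Fin 1 → ℂ) r} with hB
  have hBs : B ⊆ ball (pt z₀ 0) r := box_sub z₀ hr
  have hcf : Continuous (fib (b := b) (k := 1)) := continuous_pi fun _ => continuous_apply _
  have hBm : MeasurableSet B :=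
    ((isOpen_ball.preimage (cont_base b)).inter (isOpen_ball.preimage hcf)).measurableSet
  have hFc : Continuous fun z : Cn b => ((K * (‖z - z₀‖ ^ 2 + ε ^ 2)) ^ b)⁻¹ := by
    refine Continuous.inv₀ (by fun_prop) fun z => ?_
    positivity
  rw [← fub hFc measurableSet_ball measurableSet_ball, ← integral_const_mul]
  have hFi : IntegrableOn (fun x : Cn (b + 1) =>
      c₁ * ((K * (‖base x - z₀‖ ^ 2 + ε ^ 2)) ^ b)⁻¹) B := by
    have h1 : Continuous fun x : Cn (b + 1) =>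
        c₁ * ((K * (‖base x - z₀‖ ^ 2 + ε ^ 2)) ^ b)⁻¹ :=
      continuous_const.mul (hFc.comp (cont_base b))
    exact (h1.continuousOn.integrableOn_compact (isCompact_closedBall (pt z₀ 0) r)).mono_set
      (hBs.trans ball_subset_closedBall)
  have i3 := integ_ns hκ hW hs
  have h1 : ∫ x in B, c₁ * ((K * (‖base x - z₀‖ ^ 2 + ε ^ 2)) ^ b)⁻¹ ≤
      ∫ x in B, κ x * W x * ‖s x‖ ^ 2 :=
    setIntegral_mono_on hFi (i3.mono_set (hBs.trans hsub)) hBm fun x hx => hlow x (hBs hx)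
  refine h1.trans ?_
  refine setIntegral_mono_set i3 ?_ (LE.le.eventuallyLE (hBs.trans hsub))
  refine (ae_restrict_iff' hT).2 (Eventually.of_forall fun x hx => ?_)
  have := hWp x hx
  have := h0 x
  show 0 ≤ κ x * W x * ‖s x‖ ^ 2
  positivity

/-! ## The theorem -/

theorem xlim (hGFIN : S_GFIN) (hMZ : S_MZ) (hBSUM : S_BSUM) (hSECW : S_SECW.{u})
    (hLOCZ : S_LOCZ) (hSONE : S_SONE) (hETA : S_ETA) (hUEST : S_UEST.{u}) (hPUE2 : S_PUE2.{u})
    (hNONI : S_NONI) (hLCPT : S_LCPT.{u}) : S_XLIM.{u} := by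
  intro b N G _ c R Rel P Φ C H hF hDisc z₀ hz₀
  have hA := hF.fol
  have hE : Et (tubeS (Bd c 2)) Rel := hF.ket.et
  set T : Set (Cn (b + 1)) := tubeS (Bd c 2) with hT
  have hTo : IsOpen T := hE.isOpen
  have hTm : MeasurableSet T := hTo.measurableSet
  have hR : (2 : ℝ) ≤ R := by
    have h1 := hA.Rge
    have h2 := hA.Cge
    linarith
  have hΦ : ContDiffOn ℝ ∞ Φ (Bd c 2) := hA.smooth.mono (Bd_mono c hR)
  have hbase : MapsTo (base : Cn (b + 1) → Cn b) T (Bd c 2) := fun x hx => hx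
  have hΦc : ContinuousOn (fun x : Cn (b + 1) => Φ (base x)) T :=
    hΦ.continuousOn.comp (cont_base b).continuousOn hbase
  set p₀ : Cn (b + 1) := pt z₀ 0 with hp₀d
  have hbp₀ : base p₀ = z₀ := Helper35.SP.base_pt z₀ 0
  have hp₀ : p₀ ∈ T := by
    show base p₀ ∈ Bd c 2
    rw [hbp₀]
    exact hz₀
  obtain ⟨i, hi⟩ := mem_iUnion.1 hz₀
  obtain ⟨n, s, hG⟩ := hGFIN c R P Φ C hA hDisc
  obtain ⟨r₀, hr₀, hr₀s, hr₀sub, hiso⟩ := hLOCZ c R P Φ C hA n s hG i z₀ hi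
  obtain ⟨χ, hχ⟩ : ∃ χ, CutOff c n s i z₀ r₀ (r₀ / 2) χ := by
    let f : ContDiffBump z₀ := ⟨r₀ / 2, r₀, by positivity, by linarith⟩
    refine ⟨f, hi, by positivity, by linarith, hr₀s, hr₀sub, hiso, f.contDiff,
      fun z => ⟨f.nonneg, f.le_one⟩, fun z hz => ?_, fun z hz => ?_⟩
    · exact f.zero_of_le_dist (by rw [mem_closedBall, not_le] at hz; exact hz.le)
    · exact f.one_of_mem_closedBall (ball_subset_closedBall hz)
  obtain ⟨r₂, hr₂, hone⟩ := hSONE c R P Φ C hA n s hG i z₀ r₀ (r₀ / 2) χ hχ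
  obtain ⟨η, K, r₃, hK, hr₃, hr₃sub, hη⟩ :=
    hETA c R P Φ C hA n s hG i z₀ r₀ (r₀ / 2) χ hχ r₂ hr₂
  obtain ⟨M₀, hM₀, hJM⟩ := hMZ c R P Φ C hA hDisc
  obtain ⟨M, hM, hMK⟩ : ∃ M : ℕ, JM c P (M + 1) ∧ K + 1 ≤ M := by
    have h2 : ⌈K⌉₊ + 2 ≤ M₀ * (⌈K⌉₊ + 2) := Nat.le_mul_of_pos_left _ hM₀
    refine ⟨M₀ * (⌈K⌉₊ + 2) - 1, ?_, ?_⟩
    · have h1 : M₀ * (⌈K⌉₊ + 2) - 1 + 1 = M₀ * (⌈K⌉₊ + 2) := Nat.sub_add_cancel (by omega)
      rw [h1]
      exact hJM _
    · have h3 : ⌈K⌉₊ + 1 ≤ M₀ * (⌈K⌉₊ + 2) - 1 := by omega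
      have h4 := (Nat.cast_le (α := ℝ)).2 h3
      rw [Nat.cast_add, Nat.cast_one] at h4
      have h5 := Nat.le_ceil K
      linarith
  set f : Cn b → ℂ := bsum c n s (M + 1) (fun z => (χ z : ℂ)) with hf
  obtain ⟨hfz, -, hfdb⟩ := hone (M + 1) hM
  have hcoe : ContDiff ℝ ∞ (fun z => (χ z : ℂ)) := Complex.ofRealCLM.contDiff.comp hχ.smooth
  obtain ⟨hfs, hfaut⟩ := hBSUM c R P Φ C hA n s hG (M + 1) hM (fun z => (χ z : ℂ))
    (closedBall z₀ r₀) hcoe (isCompact_closedBall _ _)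
    (hr₀sub.trans (subset_iUnion (fun i => ball (c i) 2) i))
    (fun z hz => by rw [hχ.supp z hz]; simp)
  obtain ⟨hS1, hS2⟩ := hSECW c R Rel P Φ C H hF
  have hsec : Sec T Rel (M + 1) (fun x => f (base x)) := hS1 (M + 1) f hfs hfaut
  obtain ⟨κ, hκ, hκp⟩ := hPUE2 T Rel hE {p₀} (singleton_subset_iff.2 hp₀) isCompact_singleton
  have hκ0 : 0 < κ p₀ := hκp _ rfl
  have hfb : ContinuousOn (fun x : Cn (b + 1) => f (base x)) T :=
    hfs.continuousOn.comp (cont_base b).continuousOn hbase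
  set Wf : (Cn b → ℝ) → Cn (b + 1) → ℝ := fun e x =>
    Real.exp (-(M * Φ (base x)) - e (base x)) with hWf
  have hWc : ∀ e : Cn b → ℝ, ContinuousOn e (Bd c 2) → ContinuousOn (Wf e) T := by
    intro e he
    exact ((hΦc.const_mul (M : ℝ)).neg.sub
      (he.comp (cont_base b).continuousOn hbase)).rexp
  have hW'wt : Wt T Rel (M + 1) (Wf fun _ => 0) :=
    (hS2 M (fun _ => 0) contDiffOn_const (fun _ _ _ _ _ => rfl)).1
  have hlev0 : ∀ z ∈ Bd c 2, ∀ e, 0 ≤ lev Φ z e := by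
    intro z hz e
    by_cases he : e = 0
    · rw [he, lev_zero_vec]
    · exact (hA.pos z (Bd_mono c hR hz) e he).le
  set A : ℝ := ∫ x in T, κ x * Real.exp (-(M * Φ (base x)) + K) * qdb Φ f (base x) with hAd
  have hex : ∀ ε : ℝ, 0 < ε → ε ≤ 1 / 2 → ∃ g : Cn (b + 1) → ℂ, Sec T Rel (M + 1) g ∧
      DifferentiableOn ℂ g T ∧ nsE T κ (Wf (η ε)) (fun x => f (base x) - g x) ≤ A := by
    intro ε hε hε'
    obtain ⟨e1, e2, e3, e4, e5, e6⟩ := hη ε hε hε'
    obtain ⟨hwt, hlev⟩ := hS2 M (η ε) e1 e2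
    have hcond : ∀ x ∈ tubeS (Bd c 2), ∀ v, lev Φ (base x) (base v) ≤
        - lev (fun y => Real.log (Wf (η ε) y)) x v := by
      intro x hx v
      have h1 := hlev x hx v
      have h2 := e4 (base x) hx (base v)
      have h3 : 0 ≤ lev Φ (base x) (base v) := hlev0 _ hx _
      have h4 : lev (fun y => Real.log (Wf (η ε) y)) x v =
        - (M * lev Φ (base x) (base v)) - lev (η ε) (base x) (base v) := h1
      rw [h4]
      nlinarith
    obtain ⟨q1, q2, g, g1, g2, g3⟩ := hUEST c R Rel P Φ C H hF κ hκ (M + 1) (Wf (η ε)) hwt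
      hcond f hfs hsec
    refine ⟨g, g1, g2, g3.trans ?_⟩
    have q3 : ContinuousOn (fun x : Cn (b + 1) => qdb Φ f (base x)) T :=
      q2.comp (cont_base b).continuousOn hbase
    have i1 : IntegrableOn (fun x => κ x * Wf (η ε) x * qdb Φ f (base x)) T := by
      have h1 := (integ_test hκ.test (F := fun x => Wf (η ε) x * qdb Φ f (base x))
        ((hWc _ e1.continuousOn).mul q3)).integrableOn (s := T)
      refine h1.congr_fun (fun x _ => ?_) hTm
      simp only []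
      ring
    have i2 : IntegrableOn (fun x => κ x * Real.exp (-(M * Φ (base x)) + K) *
        qdb Φ f (base x)) T := by
      have h1 := (integ_test hκ.test
        (F := fun x => Real.exp (-(M * Φ (base x)) + K) * qdb Φ f (base x))
        (((hΦc.const_mul (M : ℝ)).neg.add continuousOn_const).rexp.mul q3)).integrableOn (s := T)
      refine h1.congr_fun (fun x _ => ?_) hTm
      simp only []
      ring
    refine setIntegral_mono_on i1 i2 hTm fun x hx => ?_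
    obtain ⟨q4, q5⟩ := q1 (base x) hx
    by_cases hq : qdb Φ f (base x) = 0
    · rw [hq, mul_zero, mul_zero]
    · obtain ⟨j, hj⟩ := mem_iUnion.1 (show base x ∈ Bd c 2 from hx)
      have h1 : ∀ k, r₂ ≤ ‖(s j k).g (base x) - z₀‖ := by
        intro k
        by_contra h2
        rw [not_le] at h2
        exact hq (q5 (hfdb j (base x) hj ⟨k, h2⟩))
      have h2 := e5 j (base x) hj h1
      refine mul_le_mul_of_nonneg_right ?_ q4
      refine mul_le_mul_of_nonneg_left ?_ (hκ.nonneg x)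
      exact Real.exp_le_exp.2 (by linarith)
  have hεj : ∀ j : ℕ, 0 < 1 / ((j : ℝ) + 2) ∧ 1 / ((j : ℝ) + 2) ≤ 1 / 2 := by
    intro j
    have hj : (0 : ℝ) ≤ j := Nat.cast_nonneg j
    refine ⟨by positivity, ?_⟩
    exact one_div_le_one_div_of_le (by norm_num) (by linarith)
  choose g hg1 hg2 hg3 using fun j : ℕ => hex (1 / ((j : ℝ) + 2)) (hεj j).1 (hεj j).2
  have hbd : ∀ j, nsE T κ (Wf fun _ => 0) (g j) ≤
      2 * nsE T κ (Wf fun _ => 0) (fun x => f (base x)) + 2 * A := by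
    intro j
    obtain ⟨e1, e2, e3, e4, e5, e6⟩ := hη _ (hεj j).1 (hεj j).2
    refine ns_bound hTm hκ.test hκ.nonneg (hWc _ e1.continuousOn) (hWc _ continuousOn_const)
      (fun x hx => ⟨(Real.exp_pos _).le, Real.exp_le_exp.2 ?_⟩) hfb (hg2 j).continuousOn (hg3 j)
    have := e3 (base x) hx
    linarith
  obtain ⟨φ, g', hφ, g'1, g'2, g'3⟩ := hLCPT T Rel H hF.ket κ hκ (M + 1) (Wf fun _ => 0) hW'wt g
    _ (fun j => ⟨hg1 j, hg2 j, hbd j⟩)
  refine ⟨M + 1, g', Nat.le_add_left 1 M, g'1, g'2, fun hzero => ?_⟩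
  set δ : ℝ := ‖f z₀‖ / 4 with hδd
  have hδ : 0 < δ := div_pos (norm_pos_iff.2 hfz) (by norm_num)
  have hc1 : ContinuousAt (fun x : Cn (b + 1) => f (base x)) p₀ :=
    hfb.continuousAt (hTo.mem_nhds hp₀)
  have n1 : ∀ᶠ x in 𝓝 p₀, ‖f (base x) - f z₀‖ < δ := by
    have h1 : ContinuousAt (fun x : Cn (b + 1) => ‖f (base x) - f z₀‖) p₀ :=
      (hc1.sub continuousAt_const).norm
    refine h1.eventually_lt continuousAt_const ?_
    rw [hbp₀, sub_self, norm_zero]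
    exact hδ
  have n2 : ∀ᶠ x in 𝓝 p₀, ‖g' x‖ < δ := by
    have h1 : ContinuousAt (fun x => ‖g' x‖) p₀ :=
      (g'2.continuousOn.continuousAt (hTo.mem_nhds hp₀)).norm
    refine h1.eventually_lt continuousAt_const ?_
    rw [hzero, norm_zero]
    exact hδ
  have n3 : ∀ᶠ x in 𝓝 p₀, κ p₀ / 2 < κ x :=
    continuousAt_const.eventually_lt hκ.test.1.continuous.continuousAt (half_lt_self hκ0)
  set w₀ : ℝ := Real.exp (-(M * Φ z₀)) with hw₀
  have hw₀p : 0 < w₀ := Real.exp_pos _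
  have n4 : ∀ᶠ x in 𝓝 p₀, w₀ / 2 < Real.exp (-(M * Φ (base x))) := by
    have h1 : ContinuousAt (fun x : Cn (b + 1) => Real.exp (-(M * Φ (base x)))) p₀ :=
      ((hΦc.const_mul (M : ℝ)).neg.rexp).continuousAt (hTo.mem_nhds hp₀)
    refine continuousAt_const.eventually_lt h1 ?_
    rw [hbp₀]
    exact half_lt_self hw₀p
  have n5 : ∀ᶠ x in 𝓝 p₀, x ∈ T := hTo.mem_nhds hp₀
  have n6 : ∀ᶠ x in 𝓝 p₀, base x ∈ ball z₀ r₃ := by
    refine (cont_base b).continuousAt.eventually_mem ?_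
    rw [hbp₀]
    exact ball_mem_nhds z₀ hr₃
  obtain ⟨t, ht, n7⟩ := (Metric.tendstoLocallyUniformlyOn_iff.1 g'3) δ hδ p₀ hp₀
  rw [hTo.nhdsWithin_eq hp₀] at ht
  obtain ⟨r, hr, hball⟩ :=
    Metric.mem_nhds_iff.1 (n1.and (n2.and (n3.and (n4.and (n5.and (n6.and ht))))))
  set c₁ : ℝ := (κ p₀ / 2) * (w₀ / 2) * δ ^ 2 with hc₁d
  have hc₁ : 0 < c₁ := by positivity
  set V : ℝ := (volume (ball (0 : Fin 1 → ℂ) r)).toReal with hVd
  have hV : 0 < V := ENNReal.toReal_pos (measure_ball_pos volume _ hr).ne' measure_ball_lt_top.ne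
  obtain ⟨ε₀, hε₀, hnoni⟩ := hNONI z₀ r K hA.posb hr hK ((A + 1) / (c₁ * V))
  obtain ⟨j, hj1, hj2⟩ : ∃ j, (∀ y ∈ t, dist (g' y) (g (φ j) y) < δ) ∧
      1 / ((φ j : ℝ) + 2) < ε₀ := by
    have h1 : Tendsto (fun j : ℕ => 1 / ((j : ℝ) + 2)) atTop (𝓝 0) := by
      have h2 : Tendsto (fun j : ℕ => (j : ℝ) + 2) atTop atTop :=
        tendsto_atTop_add_const_right _ _ tendsto_natCast_atTop_atTop
      exact tendsto_const_nhds.div_atTop h2
    have h2 : Tendsto (fun j : ℕ => 1 / ((φ j : ℝ) + 2)) atTop (𝓝 0) :=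
      h1.comp hφ.tendsto_atTop
    exact (n7.and (h2.eventually (gt_mem_nhds hε₀))).exists
  obtain ⟨e1, e2, e3, e4, e5, e6⟩ := hη _ (hεj (φ j)).1 (hεj (φ j)).2
  have hlow := ns_lower hTm hκ.test hκ.nonneg (hWc (η (1 / ((φ j : ℝ) + 2))) e1.continuousOn)
    (fun x _ => (Real.exp_pos _).le) (s := fun x => f (base x) - g (φ j) x)
    (hfb.sub (hg2 (φ j)).continuousOn) hr (fun x hx => (hball hx).2.2.2.2.1) (c₁ := c₁) hK
    (hεj (φ j)).1 (by
      intro x hx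
      obtain ⟨m1, m2, m3, m4, m5, m6, m7⟩ := hball hx
      have hX : 0 < K * (‖base x - z₀‖ ^ 2 + (1 / ((φ j : ℝ) + 2)) ^ 2) := by
        have := (hεj (φ j)).1
        positivity
      have h1 := exp_neg_log hX (e6 (base x) m6)
      have h2 : δ ≤ ‖f (base x) - g (φ j) x‖ := by
        have h3 := hj1 x m7
        rw [dist_eq_norm] at h3
        have h4 : ‖f z₀‖ = 4 * δ := by rw [hδd]; ring
        have h5 : f z₀ = (f (base x) - g (φ j) x) - (f (base x) - f z₀) + g' x -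
            (g' x - g (φ j) x) := by ring
        have h6 : ‖f z₀‖ ≤ ‖f (base x) - g (φ j) x‖ + ‖f (base x) - f z₀‖ + ‖g' x‖ +
            ‖g' x - g (φ j) x‖ := by
          calc ‖f z₀‖ = ‖(f (base x) - g (φ j) x) - (f (base x) - f z₀) + g' x -
              (g' x - g (φ j) x)‖ := by rw [← h5]
            _ ≤ ‖(f (base x) - g (φ j) x) - (f (base x) - f z₀) + g' x‖ +
                ‖g' x - g (φ j) x‖ := norm_sub_le _ _
            _ ≤ ‖(f (base x) - g (φ j) x) - (f (base x) - f z₀)‖ + ‖g' x‖ +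
                ‖g' x - g (φ j) x‖ := by gcongr; exact norm_add_le _ _
            _ ≤ _ := by gcongr; exact norm_sub_le _ _
        linarith
      have h3 : δ ^ 2 ≤ ‖f (base x) - g (φ j) x‖ ^ 2 := pow_le_pow_left₀ hδ.le h2 2
      have h4 : Wf (η (1 / ((φ j : ℝ) + 2))) x = Real.exp (-(M * Φ (base x))) *
          Real.exp (-(η (1 / ((φ j : ℝ) + 2)) (base x))) := by
        rw [← Real.exp_add]
        simp only [hWf]
        congr 1
      rw [h4, hc₁d]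
      set Y := ((K * (‖base x - z₀‖ ^ 2 + (1 / ((φ j : ℝ) + 2)) ^ 2)) ^ b)⁻¹ with hY
      have hY0 : 0 ≤ Y := by positivity
      calc κ p₀ / 2 * (w₀ / 2) * δ ^ 2 * Y = (κ p₀ / 2) * ((w₀ / 2) * Y) * δ ^ 2 := by ring
        _ ≤ κ x * (Real.exp (-(M * Φ (base x))) *
            Real.exp (-(η (1 / ((φ j : ℝ) + 2)) (base x)))) *
            ‖f (base x) - g (φ j) x‖ ^ 2 := by
          have hκx : 0 ≤ κ x := hκ.nonneg x
          gcongr)
  have hI := hnoni (1 / ((φ j : ℝ) + 2)) (hεj (φ j)).1 hj2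
  have hle := hlow.trans (hg3 (φ j))
  rw [← hVd] at hle
  rw [div_le_iff₀ (by positivity)] at hI
  nlinarith

end Pool.Agent.Helper19.SP
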